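import Pool.Agent.N557.BP.Stm2

set_option autoImplicit false

/-!
Project BP (helper557), leaf R4: slices which are continuous on the open polygon and have limits at
the vertices extend continuously to the plane.
-/

namespace Pool.Agent.N950.BP

open Complex Set MeasureTheory Filter Topology Pool.Agent.W780.PG Pool.Agent.W780.BB
  Pool.Agent.TH103.BL Pool.Agent.N557.BP

open scoped Real ComplexConjugate

variable {n : ℕ} {p : Fin (n + 3) → ℂ}

lemma ae_all {O : Set ℂ} (hO : IsOpen O) {H : ℂ → ℝ} (hH : ContinuousOn H O) {V : Set ℝ}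
    (hV : IsClosed V) (h : ∀ᵐ z : ℂ, z ∈ O → H z ∈ V) : ∀ z ∈ O, H z ∈ V := by
  intro z hz
  by_contra hc
  have h1 : IsOpen (O ∩ H ⁻¹' Vᶜ) := hH.isOpen_inter_preimage hO hV.isOpen_compl
  have h2 : 0 < volume (O ∩ H ⁻¹' Vᶜ) := h1.measure_pos volume ⟨z, hz, hc⟩
  refine h2.ne' ?_
  rw [ae_iff] at h
  refine measure_mono_null ?_ h
  rintro w ⟨hw, hw'⟩ h3
  exact hw' (h3 hw)

lemma trans_eq (hp : IsConvexPolygon p) {f : ℂ × ℝ → ℝ} (hI : IsInvariantFun p f) {θ : ℝ}
    {G : ℂ → ℝ} (hG : ContinuousOn G (reg p)) (hf : ∀ᵐ z : ℂ, z ∈ reg p → f (z, θ) = G z)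
    (s : ℝ) : ∀ z, z ∈ reg p → z + s • dir θ ∈ reg p → G z = G (z + s • dir θ) := by
  have hR := reg_open hp
  have hc : Continuous fun z : ℂ => z + s • dir θ := continuous_id.add continuous_const
  have hO : IsOpen (reg p ∩ (fun z : ℂ => z + s • dir θ) ⁻¹' reg p) := hR.inter (hR.preimage hc)
  have hH : ContinuousOn (fun z : ℂ => G z - G (z + s • dir θ))
      (reg p ∩ (fun z : ℂ => z + s • dir θ) ⁻¹' reg p) :=
    (hG.mono inter_subset_left).sub (hG.comp hc.continuousOn fun z hz => hz.2)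
  have h2 : ∀ᵐ z : ℂ, z + s • dir θ ∈ reg p → f (z + s • dir θ, θ) = G (z + s • dir θ) :=
    (measurePreserving_add_right (volume : Measure ℂ) (s • dir θ)).quasiMeasurePreserving.ae hf
  have h3 := ae_all hO hH (V := {0}) isClosed_singleton (by
    filter_upwards [hf, h2] with z h1 h2 hz
    rw [mem_singleton_iff, sub_eq_zero, ← h1 hz.1, ← h2 hz.2]
    exact hI.free z θ s (by rw [region_eq hp]; exact hz.1) (by rw [region_eq hp]; exact hz.2))
  intro z hz hz'
  exact sub_eq_zero.1 (h3 z ⟨hz, hz'⟩)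

lemma extend {R : Set ℂ} {G : ℂ → ℝ} (hG : ContinuousOn G R)
    (h : ∀ y ∈ closure R, ∃ l, Tendsto G (𝓝[R] y) (𝓝 l)) :
    ∃ G' : ℂ → ℝ, Continuous G' ∧ ∀ z ∈ R, G' z = G z := by
  have h1 : ContinuousOn (extendFrom R G) (closure R) := continuousOn_extendFrom subset_rfl h
  obtain ⟨g, hg⟩ := ContinuousMap.exists_restrict_eq (isClosed_closure (s := R))
    ⟨(closure R).domRestrict (extendFrom R G), h1.domRestrict⟩
  refine ⟨g, g.continuous, fun z hz => ?_⟩
  have h2 := congrArg (fun k => k ⟨z, subset_closure hz⟩) hg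
  have h3 : g z = extendFrom R G z := h2
  rw [h3]
  exact extendFrom_eq (subset_closure hz) (hG z hz)

/-- limits at points which are not vertices -/
lemma lim_side (hp : IsConvexPolygon p) {f : ℂ × ℝ → ℝ} (hI : IsInvariantFun p f) {θ : ℝ}
    {G : ℂ → ℝ} (hG : ContinuousOn G (reg p)) (hf : ∀ᵐ z : ℂ, z ∈ reg p → f (z, θ) = G z)
    (i : Fin (n + 3)) (hs : sl p i θ ≠ 0) {y : ℂ} (hy : sf p i y = 0)
    (hy' : ∀ k, k ≠ i → 0 < sf p k y) : ∃ l, Tendsto G (𝓝[reg p] y) (𝓝 l) := by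
  obtain ⟨s, hs'⟩ : ∃ s : ℝ, y + s • dir θ ∈ reg p := by
    have h1 : ∀ k, k ≠ i → ∀ᶠ t in 𝓝[>] (0 : ℝ), 0 < sf p k y + (t * sl p i θ) * sl p k θ := by
      intro k hk
      have hc : Continuous fun t : ℝ => sf p k y + (t * sl p i θ) * sl p k θ := by fun_prop
      have h2 : Tendsto (fun t : ℝ => sf p k y + (t * sl p i θ) * sl p k θ) (𝓝[>] 0)
          (𝓝 (sf p k y)) := by
        have := hc.tendsto 0
        simp only [zero_mul, add_zero] at this
        exact this.mono_left nhdsWithin_le_nhds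
      exact h2.eventually (lt_mem_nhds (hy' k hk))
    have h3 : ∀ᶠ t in 𝓝[>] (0 : ℝ), ∀ k, k ≠ i → 0 < sf p k y + (t * sl p i θ) * sl p k θ :=
      eventually_all.2 fun k => by
        by_cases hk : k = i
        · exact Eventually.of_forall fun t h => absurd hk h
        · filter_upwards [h1 k hk] with t ht _
          exact ht
    obtain ⟨t, ht, ht0⟩ := (h3.and self_mem_nhdsWithin).exists
    refine ⟨t * sl p i θ, fun k => ?_⟩
    change 0 < sf p k _
    rw [sf_ray]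
    by_cases hk : k = i
    · subst hk
      rw [hy, zero_add, mul_assoc]
      exact mul_pos ht0 (mul_self_pos.2 hs)
    · exact ht k hk
  refine ⟨G (y + s • dir θ), ?_⟩
  have hR := reg_open hp
  have hc : Continuous fun z : ℂ => z + s • dir θ := continuous_id.add continuous_const
  have h1 : Tendsto (fun z : ℂ => G (z + s • dir θ)) (𝓝[reg p] y) (𝓝 (G (y + s • dir θ))) := by
    have h2 : ContinuousAt G (y + s • dir θ) := hG.continuousAt (hR.mem_nhds hs')
    exact (Tendsto.comp h2 (hc.tendsto y)).mono_left nhdsWithin_le_nhds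
  refine h1.congr' ?_
  have h3 : ∀ᶠ z in 𝓝[reg p] y, z + s • dir θ ∈ reg p :=
    ((hc.tendsto y).eventually (hR.mem_nhds hs')).filter_mono nhdsWithin_le_nhds
  filter_upwards [h3, self_mem_nhdsWithin] with z h4 h5
  exact (trans_eq hp hI hG hf s z h5 h4).symm

/-- limits at the vertices -/
lemma lim_vert (hp : IsConvexPolygon p) {f : ℂ × ℝ → ℝ} {θ : ℝ}
    {G : ℂ → ℝ} (hG : ContinuousOn G (reg p)) (hf : ∀ᵐ z : ℂ, z ∈ reg p → f (z, θ) = G z)
    (i : Fin (n + 3)) (hV : VL p f i θ) : ∃ l, Tendsto G (𝓝[reg p] (p i)) (𝓝 l) := by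
  obtain ⟨l, hl⟩ := hV
  refine ⟨l, ?_⟩
  have hR := reg_open hp
  rw [Metric.tendsto_nhds]
  intro ε hε
  obtain ⟨r, hr, h⟩ := hl (ε / 2) (by positivity)
  have hO : IsOpen (reg p ∩ Metric.ball (p i) r) := hR.inter Metric.isOpen_ball
  have h1 := ae_all hO (hG.mono inter_subset_left) (V := Metric.closedBall l (ε / 2))
    Metric.isClosed_closedBall (by
      filter_upwards [hf, h] with z h1 h2 hz
      rw [Metric.mem_closedBall, ← h1 hz.1, Real.dist_eq]
      refine h2 (by rw [region_eq hp]; exact hz.1) ?_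
      rw [← dist_eq_norm]
      exact hz.2)
  have h2 : ∀ᶠ z in 𝓝[reg p] (p i), z ∈ Metric.ball (p i) r :=
    mem_nhdsWithin_of_mem_nhds (Metric.ball_mem_nhds _ hr)
  filter_upwards [h2, self_mem_nhdsWithin] with z h3 h4
  have h5 := h1 z ⟨h4, h3⟩
  rw [Metric.mem_closedBall] at h5
  linarith

theorem t_r4 : S_R4 := by
  intro n p hp f _ hI hO hV
  have hV' : ∀ᵐ θ : ℝ, ∀ i, VL p f i θ := ae_all_iff.2 hV
  have hs : ∀ᵐ θ : ℝ, ∀ i, sl p i θ ≠ 0 := ae_all_iff.2 fun i => ae_sl hp i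
  filter_upwards [hO, hV', hs] with θ h1 h2 h3
  obtain ⟨G, hG, hf⟩ := h1
  have hrr := region_eq hp
  rw [hrr] at hG hf
  obtain ⟨G', hG', h4⟩ := extend hG (fun y hy => by
    rw [(hB n p hp).2.2.2.2.2.2.1] at hy
    by_cases hyv : ∃ k, y = p k
    · obtain ⟨k, rfl⟩ := hyv
      exact lim_vert hp hG hf k (h2 k)
    · by_cases hyr : y ∈ reg p
      · exact ⟨_, hG y hyr⟩
      · obtain ⟨i, hi⟩ : ∃ i, sf p i y = 0 := by
          by_contra hc
          refine hyr fun i => lt_of_le_of_ne (hy i) fun h => hc ⟨i, h.symm⟩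
        have h5 := (hB n p hp).2.2.2.2.2.2.2.2.2.2.1 y hy i hi (fun k h => hyv ⟨k, h⟩)
        exact lim_side hp hI hG hf i (h3 i) hi h5.2)
  refine ⟨G', hG', ?_⟩
  rw [hrr]
  filter_upwards [hf] with z hz hzr
  rw [hz hzr, h4 z hzr]

end Pool.Agent.N950.BP
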